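import Pool.Agent.H14.SN.ROT

/-!
# Rows LA1, LA2, LA3: linear algebra
-/

set_option autoImplicit false

open MeasureTheory Metric Set Filter Topology
open scoped ContDiff RealInnerProductSpace

namespace Pool.Agent.H14.SN

open Pool.Agent.H87.SN

theorem decomp {n : ℕ} (v : E n) : v = ∑ i : Fin n, v i • (bv i : E n) := by
  ext j
  rw [WithLp.ofLp_sum, Finset.sum_apply]
  simp [bv]

theorem cs {n : ℕ} {F : Type*} [NormedAddCommGroup F] [NormedSpace ℝ F] (c : Fin n → ℝ)
    (f : Fin n → F) : ‖∑ i : Fin n, c i • f i‖ ^ 2 ≤ (∑ i : Fin n, c i ^ 2) *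
      ∑ i : Fin n, ‖f i‖ ^ 2 := by
  have h1 : ‖∑ i : Fin n, c i • f i‖ ≤ ∑ i : Fin n, |c i| * ‖f i‖ := by
    refine (norm_sum_le _ _).trans (le_of_eq ?_)
    exact Finset.sum_congr rfl fun i _ => by rw [norm_smul, Real.norm_eq_abs]
  have h2 := Finset.sum_mul_sq_le_sq_mul_sq Finset.univ (fun i => |c i|) fun i => ‖f i‖
  simp only [sq_abs] at h2
  refine le_trans ?_ h2
  exact pow_le_pow_left₀ (norm_nonneg _) h1 2

theorem pf_LA3 : T_LA3 := by
  refine ⟨fun n m L v => ?_, fun d m L c => cs c fun i => L (bv i.succ.succ)⟩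
  have e : L v = ∑ i : Fin n, v i • L (bv i) := by
    conv_lhs => rw [decomp v]
    rw [map_sum]
    exact Finset.sum_congr rfl fun i _ => by rw [map_smul]
  rw [e]
  have h := cs (fun i => v i) fun i => L (bv i)
  have e2 : ‖v‖ ^ 2 = ∑ i : Fin n, v i ^ 2 := by
    rw [EuclideanSpace.norm_sq_eq]
    simp
  rw [e2]
  exact h

theorem pf_LA2 : T_LA2 := by
  intro n m L e v he hev
  set L' : E n →L[ℝ] E m := L - (innerSL ℝ e).smulRight (L e) with hL'
  have hL'v : ∀ w, L' w = L w - ⟪e, w⟫ • L e := by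
    intro w
    rw [hL']
    simp
  have h1 : L' v = L v := by rw [hL'v, hev, zero_smul, sub_zero]
  have hbv : ∀ i, ⟪e, (bv i : E n)⟫ = e i := by
    intro i
    unfold bv
    rw [EuclideanSpace.inner_single_right]
    simp
  have he2 : ∑ i : Fin n, e i ^ 2 = 1 := by
    have h := EuclideanSpace.norm_sq_eq e
    rw [he] at h
    simpa using h.symm
  have hLe : L e = ∑ i : Fin n, e i • L (bv i) := by
    conv_lhs => rw [decomp e]
    rw [map_sum]
    exact Finset.sum_congr rfl fun i _ => by rw [map_smul]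
  have h2 : nsq L' = nsq L - ‖L e‖ ^ 2 := by
    unfold nsq
    have e1 : ∀ i : Fin n, ‖L' (bv i)‖ ^ 2 =
        ‖L (bv i)‖ ^ 2 - 2 * (e i * ⟪L (bv i), L e⟫) + e i ^ 2 * ‖L e‖ ^ 2 := by
      intro i
      rw [hL'v, hbv, norm_sub_sq_real, inner_smul_right, norm_smul, Real.norm_eq_abs, mul_pow,
        sq_abs]
    rw [Finset.sum_congr rfl fun i _ => e1 i, Finset.sum_add_distrib, Finset.sum_sub_distrib,
      ← Finset.mul_sum, ← Finset.sum_mul, he2]
    have e2 : ∑ i : Fin n, e i * ⟪L (bv i), L e⟫ = ‖L e‖ ^ 2 := by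
      have e3 : ⟪L e, L e⟫ = ∑ i : Fin n, e i * ⟪L (bv i), L e⟫ := by
        conv_lhs => rw [hLe]
        rw [sum_inner]
        rw [← hLe]
        exact Finset.sum_congr rfl fun i _ => by rw [real_inner_smul_left]
      rw [← e3, real_inner_self_eq_norm_sq]
    rw [e2]
    ring
  have h3 := (pf_LA3.1 n m L' v)
  rw [h1, h2] at h3
  exact h3

theorem pf_LA1 : T_LA1 := by
  intro d m L x
  have hP : L (Pm d x) = x 0 • L (bv 0) + x 1 • L (bv 1) := by
    have e : Pm d x = x 0 • (bv 0 : E (d + 2)) + x 1 • (bv 1 : E (d + 2)) := by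
      refine ext2 ?_ ?_ fun i => ?_
      · rw [Pm_zero]
        simp [bv]
      · rw [Pm_one]
        simp [bv]
      · rw [Pm_succ]
        simp [bv, Fin.ext_iff]
    rw [e, map_add, map_smul, map_smul]
  have hJ : L (Jm d x) = (-x 1) • L (bv 0) + x 0 • L (bv 1) := by
    have e : Jm d x = (-x 1) • (bv 0 : E (d + 2)) + x 0 • (bv 1 : E (d + 2)) := by
      refine ext2 ?_ ?_ fun i => ?_
      · rw [Jm_zero]
        simp [bv]
      · rw [Jm_one]
        simp [bv]
      · rw [Jm_succ]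
        simp [bv, Fin.ext_iff]
    rw [e, map_add, map_smul, map_smul]
  have hn : nsq L = ‖L (bv 0)‖ ^ 2 + ‖L (bv 1)‖ ^ 2 + nzs L := by
    unfold nsq nzs
    rw [Fin.sum_univ_succ, Fin.sum_univ_succ]
    simp only [Fin.succ_zero_eq_one]
    ring
  have hr : rho x ^ 2 = x 0 ^ 2 + x 1 ^ 2 := by
    unfold rho
    rw [Real.sq_sqrt (by positivity)]
  rw [hP, hJ, hn, hr, norm_add_sq_real, norm_add_sq_real, norm_smul, norm_smul, norm_smul,
    norm_smul, Real.norm_eq_abs, Real.norm_eq_abs, Real.norm_eq_abs, mul_pow, mul_pow, mul_pow,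
    mul_pow, sq_abs, sq_abs, sq_abs, inner_smul_left, inner_smul_right, inner_smul_left,
    inner_smul_right]
  simp only [conj_trivial]
  ring

end Pool.Agent.H14.SN
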