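import Pool.Agent.H87.SN.Targets

/-!
# Row ROT: the rotations of the first two coordinates
-/

set_option autoImplicit false

open MeasureTheory Metric Set Filter Topology
open scoped ContDiff RealInnerProductSpace

namespace Pool.Agent.H14.SN

open Pool.Agent.H87.SN

variable {d : ℕ}

theorem Pm_zero (x : E (d + 2)) : (Pm d x) 0 = x 0 := by
  simp [Pm]

theorem Pm_one (x : E (d + 2)) : (Pm d x) 1 = x 1 := by
  simp [Pm]

theorem Pm_succ (x : E (d + 2)) (i : Fin d) : (Pm d x) i.succ.succ = 0 := by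
  simp [Pm]

theorem Jm_zero (x : E (d + 2)) : (Jm d x) 0 = -x 1 := by
  simp [Jm]

theorem Jm_one (x : E (d + 2)) : (Jm d x) 1 = x 0 := by
  simp [Jm]

theorem Jm_succ (x : E (d + 2)) (i : Fin d) : (Jm d x) i.succ.succ = 0 := by
  simp [Jm]

theorem ext2 {x y : E (d + 2)} (h0 : x 0 = y 0) (h1 : x 1 = y 1)
    (h2 : ∀ i : Fin d, x i.succ.succ = y i.succ.succ) : x = y := by
  ext i
  refine Fin.cases h0 (fun i => ?_) i
  refine Fin.cases h1 (fun i => ?_) i
  exact h2 i

theorem rot_c0 (θ : ℝ) (x : E (d + 2)) : (rot θ x) 0 = Real.cos θ * x 0 - Real.sin θ * x 1 := by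
  unfold rot
  simp only [PiLp.add_apply, PiLp.smul_apply, smul_eq_mul, Pm_zero, Jm_zero]
  ring

theorem rot_c1 (θ : ℝ) (x : E (d + 2)) : (rot θ x) 1 = Real.sin θ * x 0 + Real.cos θ * x 1 := by
  unfold rot
  simp only [PiLp.add_apply, PiLp.smul_apply, smul_eq_mul, Pm_one, Jm_one]
  ring

theorem rot_c2 (θ : ℝ) (x : E (d + 2)) (i : Fin d) :
    (rot θ x) i.succ.succ = x i.succ.succ := by
  unfold rot
  simp only [PiLp.add_apply, PiLp.smul_apply, smul_eq_mul, Pm_succ, Jm_succ]
  ring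

theorem normsq (x : E (d + 2)) :
    ‖x‖ ^ 2 = x 0 ^ 2 + x 1 ^ 2 + ∑ i : Fin d, x i.succ.succ ^ 2 := by
  rw [EuclideanSpace.norm_sq_eq, Fin.sum_univ_succ, Fin.sum_univ_succ]
  simp only [Real.norm_eq_abs, sq_abs, Fin.succ_zero_eq_one]
  ring

theorem rho_rot (θ : ℝ) (x : E (d + 2)) : rho (rot θ x) = rho x := by
  unfold rho
  rw [rot_c0, rot_c1]
  congr 1
  have h := Real.sin_sq_add_cos_sq θ
  linear_combination (x 0 ^ 2 + x 1 ^ 2) * h

theorem norm_rot (θ : ℝ) (x : E (d + 2)) : ‖rot θ x‖ = ‖x‖ := by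
  have h : ‖rot θ x‖ ^ 2 = ‖x‖ ^ 2 := by
    rw [normsq, normsq, rot_c0, rot_c1]
    simp only [rot_c2]
    have h := Real.sin_sq_add_cos_sq θ
    linear_combination (x 0 ^ 2 + x 1 ^ 2) * h
  exact (sq_eq_sq₀ (norm_nonneg _) (norm_nonneg _)).1 h

theorem inner_two (x y : E (d + 2)) :
    ⟪x, y⟫ = x 0 * y 0 + x 1 * y 1 + ∑ i : Fin d, x i.succ.succ * y i.succ.succ := by
  rw [PiLp.inner_apply, Fin.sum_univ_succ, Fin.sum_univ_succ]
  simp only [RCLike.inner_apply, conj_trivial, Fin.succ_zero_eq_one]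
  have e : ∑ i : Fin d, y i.succ.succ * x i.succ.succ =
      ∑ i : Fin d, x i.succ.succ * y i.succ.succ := Finset.sum_congr rfl fun i _ => by ring
  rw [e]
  ring

/-- the rotation as a linear isometry -/
noncomputable def rotL (d : ℕ) (θ : ℝ) : E (d + 2) →ₗᵢ[ℝ] E (d + 2) where
  toLinearMap := (ContinuousLinearMap.id ℝ (E (d + 2)) + (Real.cos θ - 1) • Pm d +
    Real.sin θ • Jm d).toLinearMap
  norm_map' x := norm_rot θ x

theorem pf_ROT : T_ROT := by
  intro d
  refine
    { mp := fun θ => ?_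
      norm := norm_rot
      rho := rho_rot
      zp := fun θ x => ?_
      hasDeriv := fun x θ => ?_
      add := fun θ φ x => ?_
      zero := fun x => ?_
      period := fun θ x => ?_
      cont := ?_
      normJ := fun x => ?_
      normP := fun x => ?_
      innerJP := fun x => ?_
      innerJx := fun x => ?_ }
  · exact ((rotL d θ).toLinearIsometryEquiv rfl).measurePreserving
  · unfold zp
    congr 1
    funext i
    exact rot_c2 θ x i
  · have h1 : HasDerivAt (fun s : ℝ => x + (Real.cos s - 1) • Pm d x + Real.sin s • Jm d x)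
        (0 + (-Real.sin θ) • Pm d x + Real.cos θ • Jm d x) θ :=
      ((hasDerivAt_const θ x).add (((Real.hasDerivAt_cos θ).sub_const 1).smul_const _)).add
        ((Real.hasDerivAt_sin θ).smul_const _)
    have e : Jm d (rot θ x) = 0 + (-Real.sin θ) • Pm d x + Real.cos θ • Jm d x := by
      refine ext2 ?_ ?_ fun i => ?_
      · rw [Jm_zero, rot_c1]
        simp only [PiLp.add_apply, PiLp.smul_apply, smul_eq_mul, Pm_zero, Jm_zero,
          PiLp.zero_apply]
        ring
      · rw [Jm_one, rot_c0]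
        simp only [PiLp.add_apply, PiLp.smul_apply, smul_eq_mul, Pm_one, Jm_one,
          PiLp.zero_apply]
        ring
      · rw [Jm_succ]
        simp only [PiLp.add_apply, PiLp.smul_apply, smul_eq_mul, Pm_succ, Jm_succ,
          PiLp.zero_apply]
        ring
    rw [e]
    exact h1
  · refine ext2 ?_ ?_ fun i => ?_
    · rw [rot_c0, rot_c0, rot_c1, rot_c0, Real.cos_add, Real.sin_add]
      ring
    · rw [rot_c1, rot_c0, rot_c1, rot_c1, Real.cos_add, Real.sin_add]
      ring
    · rw [rot_c2, rot_c2, rot_c2]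
  · unfold rot
    simp
  · unfold rot
    rw [Real.cos_add_two_pi, Real.sin_add_two_pi]
  · unfold rot
    fun_prop
  · rw [← abs_of_nonneg (norm_nonneg (Jm d x)), ← Real.sqrt_sq_eq_abs, normsq]
    unfold rho
    congr 1
    simp only [Jm_zero, Jm_one, Jm_succ]
    simp
    ring
  · rw [← abs_of_nonneg (norm_nonneg (Pm d x)), ← Real.sqrt_sq_eq_abs, normsq]
    unfold rho
    congr 1
    simp only [Pm_zero, Pm_one, Pm_succ]
    simp
  · rw [inner_two]
    simp only [Jm_zero, Jm_one, Jm_succ, Pm_zero, Pm_one, Pm_succ]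
    simp
    ring
  · rw [inner_two]
    simp only [Jm_zero, Jm_one, Jm_succ]
    simp
    ring

end Pool.Agent.H14.SN
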